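import Pool.Agent.X61.RI.Avg

/-!
# Hyperelliptic curves over `ℤ[1/N]` for almost all `N`

We consider the hyperelliptic curves (for `n = 4`: curves of genus one) over `ℚ` of arbitrary genus
`g ≥ 1` with rational branch points,

`y ^ 2 = D ∏_{i = 1}^{n} det (P_i, (x, z))`, `n = 2 g + 2`, `P_i` in `ℙ¹(ℚ)`,

up to isomorphisms over `ℚ`, and let `S₀` be a finite set of primes containing `2`. The positive
integer `N` stands for the base `Spec ℤ[1/N]`: we consider the curves with good reduction at all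
primes outside `S₀` which do not divide `N`, so that their Jacobians are abelian schemes over
`Spec ℤ[1/N]` without the primes of `S₀`.

1. For `0 < δ < 1/3` and `Z > 0` for all but `C X Z ^ (-δ)` of the integers `N ≤ X` all these curves,
   of all genera, have the following property: for any four branch points the product of the primes
   outside `S₀` modulo which the four points do not stay distinct is less than `Z`.
2. For each `Z` there are, for all genera together, up to isomorphism only finitely many curves with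
   this property and semistable reduction outside `S₀`.
3. So for each `η > 0` there is a finite list of curves such that for all `X` for all but `η X` of the
   integers `N ≤ X` every hyperelliptic curve over `ℚ` with rational branch points, of arbitrary
   genus, with good reduction at the primes outside `S₀` which do not divide `N` and semistable
   reduction at the primes outside `S₀` which divide `N` is isomorphic over `ℚ` to a curve of the list.
   In particular the heights of their Jacobians are bounded independently of `N` and of the genus.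

Semistable reduction can be replaced by a weaker condition: there is an integral equation of this
form which is not zero modulo `p` and has at least three different zeros modulo `p`.
-/

set_option autoImplicit false

namespace Pool.Agent.Results.MP_07b2d0_nt.AlmostAllBases

open NumberField IsDedekindDomain
open Pool.Agent.X61.RI (UnitAt Dvd)
open Pool.Agent.X61.RI.Tup

/-- the absolute norm of a prime of `ℚ`, i.e. the prime number `p` -/
noncomputable def norm (v : HeightOneSpectrum (𝓞 ℚ)) : ℝ := (Ideal.absNorm v.asIdeal : ℝ)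

/-- for any four of the points the product of the primes outside `S₀` at which their cross ratio
`λ` or `1 - λ` is not a unit is less than `Z` -/
def SmallPrimes (S₀ : Set (HeightOneSpectrum (𝓞 ℚ))) (Z : ℝ) {n : ℕ} (P : Fin n → Fin 2 → ℚ) :
    Prop :=
  ∀ i j k l : Fin n, i ≠ j → i ≠ k → i ≠ l → j ≠ k → j ≠ l → k ≠ l →
    ∀ J : Finset (HeightOneSpectrum (𝓞 ℚ)),
      (∀ v ∈ J, v ∉ S₀ ∧ ¬ UnitAt v (cr (P i) (P j) (P k) (P l))) → ∏ v ∈ J, norm v < Z

variable {K : Type} [Field K] [NumberField K]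

theorem three {n : ℕ} (hn : 4 ≤ n) : ∃ i₀ i₁ i₂ : Fin n, i₀ ≠ i₁ ∧ i₀ ≠ i₂ ∧ i₁ ≠ i₂ := by
  refine ⟨⟨0, by omega⟩, ⟨1, by omega⟩, ⟨2, by omega⟩, ?_, ?_, ?_⟩ <;>
  · rw [Ne, Fin.mk.injEq]
    omega

theorem semistable_of_good {n : ℕ} (hn : 4 ≤ n) {v : HeightOneSpectrum (𝓞 K)} {D : K}
    {P : Fin n → Fin 2 → K} (h : GoodCurve v D P) : SemistableCurve v D P := by
  obtain ⟨D', Q, h1, h2, h3, h4⟩ := h
  obtain ⟨i₀, i₁, i₂, h01, h02, h12⟩ := three hn
  refine ⟨D', Q, h1, h2, h3, fun i => ?_, i₀, i₁, i₂, h4 _ _ h01, h4 _ _ h02, h4 _ _ h12⟩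
  by_contra hcon
  push Not at hcon
  obtain ⟨j, hj⟩ : ∃ j, i ≠ j := by
    by_cases h : i = i₀
    · exact ⟨i₁, by rw [h]; exact h01⟩
    · exact ⟨i₀, h⟩
  have l0 : v.valuation K (Q i 0) < 1 := lt_of_le_of_ne (h3 i 0) (hcon 0)
  have l1 : v.valuation K (Q i 1) < 1 := lt_of_le_of_ne (h3 i 1) (hcon 1)
  have h5 : v.valuation K (det (Q i) (Q j)) < 1 := by
    unfold det
    refine Valuation.map_sub_lt _ ?_ ?_
    · rw [map_mul]
      exact lt_of_le_of_lt (mul_le_of_le_one_right' (h3 j 1)) l0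
    · rw [map_mul]
      exact lt_of_le_of_lt (mul_le_of_le_one_right' (h3 j 0)) l1
  rw [h4 i j hj] at h5
  exact lt_irrefl _ h5

section

variable {S₀ : Set (HeightOneSpectrum (𝓞 ℚ))}

open Classical in
theorem mem_bad' (hS₀ : S₀.Finite) {x : Pool.Agent.X61.RI.Pt} {v : HeightOneSpectrum (𝓞 ℚ)} :
    v ∈ Pool.Agent.X61.RI.bad hS₀.toFinset x ↔ v ∉ S₀ ∧ ¬ UnitAt v x.1 := by
  rw [Pool.Agent.X61.RI.mem_bad, Set.Finite.mem_toFinset]

theorem part1 (hS₀ : S₀.Finite) (Z : ℝ) : ∃ G : Set (Σ n : ℕ, ℚ × (Fin n → Fin 2 → ℚ)), G.Finite ∧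
    ∀ (n : ℕ) (D : ℚ) (P : Fin n → Fin 2 → ℚ), Even n → 4 ≤ n → D ≠ 0 → Distinct P →
      (∀ v, v ∉ S₀ → SemistableCurve v D P) → SmallPrimes S₀ Z P →
      ∃ D' Q, (⟨n, (D', Q)⟩ : Σ n : ℕ, ℚ × (Fin n → Fin 2 → ℚ)) ∈ G ∧ IsoCurve D P D' Q := by
  classical
  obtain ⟨F, hF, h⟩ := finite_forms
    ((Pool.Agent.X61.RI.small_finite hS₀.toFinset Z).image Subtype.val)
  obtain ⟨G, hG, h'⟩ := curves_finite hF hS₀
  refine ⟨G, hG, fun n D P hn hn4 hD hP hs hsm => h' n D P hn hD hP ?_ hs⟩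
  refine h n P (by omega) hP ?_
  intro i j k l hij hik hil hjk hjl hkl
  refine ⟨⟨_, cr_off hP hij hik hil hjk hjl hkl⟩, ?_, rfl⟩
  exact hsm i j k l hij hik hil hjk hjl hkl _ fun v hv => (mem_bad' hS₀).1 hv

theorem part2 (hS₀ : S₀.Finite) {δ : ℝ} (hδ : 0 < δ) (hδ3 : δ < 1 / 3) : ∃ C : ℝ, 0 < C ∧
    ∀ (Z : ℝ) (X : ℕ), 0 < Z →
      (({N : ℕ | 1 ≤ N ∧ N ≤ X ∧ ¬ ∀ (n : ℕ) (D : ℚ) (P : Fin n → Fin 2 → ℚ), Even n → 4 ≤ n →
        D ≠ 0 → Distinct P → (∀ v, v ∉ S₀ → ¬ Dvd v N → GoodCurve v D P) →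
        SmallPrimes S₀ Z P}.ncard : ℕ) : ℝ) ≤ C * X * Z ^ (-δ) := by
  classical
  obtain ⟨C, hC, h⟩ := Pool.Agent.X61.RI.typical hS₀.toFinset hδ hδ3
  refine ⟨C, hC, fun Z X hZ => le_trans ?_ (h Z X hZ)⟩
  rw [← Set.ncard_coe_finset]
  refine Nat.cast_le.2 (Set.ncard_le_ncard ?_ (Finset.finite_toSet _))
  rintro N ⟨h1, h2, h3⟩
  rw [Finset.mem_coe, Finset.mem_filter, Finset.mem_Ioc]
  refine ⟨⟨h1, h2⟩, ?_⟩
  by_contra hcon
  apply h3
  intro n D P hn hn4 hD hP hg i j k l hij hik hil hjk hjl hkl J hJ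
  by_contra hZJ
  apply hcon
  refine ⟨⟨_, cr_off hP hij hik hil hjk hjl hkl⟩, ?_, ?_⟩
  · refine (not_lt.1 hZJ).trans (Pool.Agent.TH876.Loc.nn_mono ?_)
    intro v hv
    exact (mem_bad' hS₀).2 (hJ v hv)
  · intro v hv
    by_contra hd
    obtain ⟨k1, k2⟩ := (mem_bad' hS₀).1 hv
    exact k2 (unitAt_of_good (hg v k1 hd).tuple hij hik hil hjk hjl hkl)

end

/-- **Hyperelliptic curves over `ℤ[1/N]` for almost all `N`.** Let `S₀` be a finite set of primes
containing `2`. The pair `(D, P)`, where `P` is an `n`-tuple of different points of the projective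
line over `ℚ`, `n ≥ 4` even, stands for the curve `y ^ 2 = D ∏ det (P_i, (x, z))`.

(1) For `0 < δ < 1/3` there is a constant `C` such that for all `Z > 0` and `X` for all but
`C X Z ^ (-δ)` of the positive integers `N ≤ X` all curves `(D, P)`, `n` arbitrary, with good
reduction at the primes outside `S₀` not dividing `N` satisfy `SmallPrimes`.

(2) For all `Z` there is a finite set of curves such that every curve `(D, P)`, `n` arbitrary, with
semistable reduction outside `S₀` and `SmallPrimes` is isomorphic over `ℚ` to one of them.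

(3) For all `η > 0` there is a finite set of curves such that for all `X` for all but `η X` of the
positive integers `N ≤ X` every curve `(D, P)`, `n` arbitrary, with good reduction at the primes
outside `S₀` not dividing `N` and semistable reduction at the primes outside `S₀` dividing `N` is
isomorphic over `ℚ` to one of them. -/
theorem result (S₀ : Set (HeightOneSpectrum (𝓞 ℚ))) (hS₀ : S₀.Finite)
    (_h2 : ∀ v : HeightOneSpectrum (𝓞 ℚ), v ∉ S₀ → v.valuation ℚ 2 = 1) :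
    (∀ δ : ℝ, 0 < δ → δ < 1 / 3 → ∃ C : ℝ, 0 < C ∧ ∀ (Z : ℝ) (X : ℕ), 0 < Z →
      (({N : ℕ | 1 ≤ N ∧ N ≤ X ∧ ¬ ∀ (n : ℕ) (D : ℚ) (P : Fin n → Fin 2 → ℚ), Even n → 4 ≤ n →
        D ≠ 0 → Distinct P → (∀ v, v ∉ S₀ → ¬ Dvd v N → GoodCurve v D P) →
        SmallPrimes S₀ Z P}.ncard : ℕ) : ℝ) ≤ C * X * Z ^ (-δ)) ∧
    (∀ Z : ℝ, ∃ G : Set (Σ n : ℕ, ℚ × (Fin n → Fin 2 → ℚ)), G.Finite ∧
      ∀ (n : ℕ) (D : ℚ) (P : Fin n → Fin 2 → ℚ), Even n → 4 ≤ n → D ≠ 0 → Distinct P →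
        (∀ v, v ∉ S₀ → SemistableCurve v D P) → SmallPrimes S₀ Z P →
        ∃ D' Q, (⟨n, (D', Q)⟩ : Σ n : ℕ, ℚ × (Fin n → Fin 2 → ℚ)) ∈ G ∧ IsoCurve D P D' Q) ∧
    ∀ η : ℝ, 0 < η → ∃ G : Set (Σ n : ℕ, ℚ × (Fin n → Fin 2 → ℚ)), G.Finite ∧ ∀ X : ℕ,
      (({N : ℕ | 1 ≤ N ∧ N ≤ X ∧ ¬ ∀ (n : ℕ) (D : ℚ) (P : Fin n → Fin 2 → ℚ), Even n → 4 ≤ n →
        D ≠ 0 → Distinct P → (∀ v, v ∉ S₀ → ¬ Dvd v N → GoodCurve v D P) →
        (∀ v, v ∉ S₀ → Dvd v N → SemistableCurve v D P) →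
        ∃ D' Q, (⟨n, (D', Q)⟩ : Σ n : ℕ, ℚ × (Fin n → Fin 2 → ℚ)) ∈ G ∧
          IsoCurve D P D' Q}.ncard : ℕ) : ℝ) ≤ η * X := by
  refine ⟨fun δ hδ hδ3 => part2 hS₀ hδ hδ3, part1 hS₀, fun η hη => ?_⟩
  obtain ⟨C, hC, h⟩ := part2 hS₀ (δ := 1 / 6) (by norm_num) (by norm_num)
  have hZ : 0 < (C / η) ^ (6 : ℝ) := Real.rpow_pos_of_pos (div_pos hC hη) _
  obtain ⟨G, hG, hG'⟩ := part1 hS₀ ((C / η) ^ (6 : ℝ))
  refine ⟨G, hG, fun X => ?_⟩
  have h1 := h ((C / η) ^ (6 : ℝ)) X hZ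
  have h2 : C * X * ((C / η) ^ (6 : ℝ)) ^ (-(1 / 6 : ℝ)) = η * X := by
    rw [← Real.rpow_mul (div_pos hC hη).le]
    norm_num
    rw [Real.rpow_neg_one]
    field_simp
  rw [h2] at h1
  refine le_trans ?_ h1
  refine Nat.cast_le.2 (Set.ncard_le_ncard ?_ ((Set.finite_Iic X).subset fun N hN => hN.2.1))
  rintro N ⟨k1, k2, k3⟩
  refine ⟨k1, k2, fun hcon => k3 ?_⟩
  intro n D P hn hn4 hD hP hg hs
  refine hG' n D P hn hn4 hD hP (fun v hv => ?_) (hcon n D P hn hn4 hD hP hg)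
  by_cases hd : Dvd v N
  · exact hs v hv hd
  · exact semistable_of_good hn4 (hg v hv hd)

end Pool.Agent.Results.MP_07b2d0_nt.AlmostAllBases
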