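import Pool.Agent.X290.Reg.Ex
import Pool.Agent.X290.Reg.Ord3
/-!
# Representations of `G_ℚ` unramified outside one prime have no ordinary part if the weight is odd

Let `p` be a prime such that `ℚ(ζ_p)` has no Galois extension of `p`-power degree, other than itself,
which is unramified at all finite primes (for instance `p = 2, 3, 5, 7`). Let `A` be a Noetherian
local ring of residue characteristic `p` (for instance the integers of a finite extension of `ℚ_p`),
`L` a field which contains it, and `R : G_ℚ → GL_m(A)` continuous, unramified outside `p`, and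
residually a sum of characters. Let `W < V` be subspaces of `L^m` stable under an inertia group `I` at
`p`, such that `I` acts on `V/W` by a power `e^a` of the cyclotomic character times finitely many
operators. Then `W` and `V` are stable under `G_ℚ`, and `G_ℚ` acts on `V/W` by `e^a` times finitely
many operators. If `R` is pure of weight `w` at one prime outside `p`, then `w = -2 a`. So for odd
weight there are no such `W < V`: an abelian variety whose Tate module is `R` has potentially good
reduction of `p`-rank `0` at `p`.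
-/

set_option autoImplicit false

open NumberField Matrix IsLocalRing Polynomial

namespace Pool.Agent.Results.MP_07b2d0_nt.NoOrdinaryPart

/-- The absolute Galois group of `ℚ`. -/
abbrev G : Type := Gal(AlgebraicClosure ℚ/ℚ)

/-- The ring of all algebraic integers. -/
abbrev Z : Type := 𝓞 (AlgebraicClosure ℚ)

/-- If `K` is a number field generated by the `p`-th roots of unity, and `L/K` is a Galois extension
of degree a power of `p` which is unramified at all maximal ideals, then `L` has degree `1` over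
`K`. -/
def NoUnramified (p : ℕ) : Prop :=
  ∀ (K L : Type) [Field K] [NumberField K] [IsCyclotomicExtension {p} ℚ K] [Field L]
    [NumberField L] [Algebra K L] [IsGalois K L],
    (∀ (Q : Ideal (𝓞 L)) [Q.IsMaximal], Algebra.IsUnramifiedAt (𝓞 K) Q) →
      ∀ k : ℕ, Module.finrank K L = p ^ k → k = 0

/-- The conditions on the ring of coefficients. -/
def Coefficients (p : ℕ) (A : Type) [CommRing A] [IsLocalRing A] [TopologicalSpace A] : Prop :=
  IsNoetherianRing A ∧ IsAdic (maximalIdeal A) ∧ (p : A) ∈ maximalIdeal A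

variable {A : Type} [CommRing A] {m : ℕ}

/-- The inertia group at the prime ideal `P` of the ring of all algebraic integers. -/
def Inertia (P : Ideal Z) : Set G := {τ | ∀ x : Z, τ • x - x ∈ P}

/-- There are an extension `k` of the residue field and characters `χ 1, ..., χ m` with values in
`k` such that the characteristic polynomial of the reduction of `R g` is the product of the
`X - χ i g`, for all `g`; by Brauer and Nesbitt this says that the semisimplification of the
reduction of `R` over `k` is the sum of the characters `χ i`. -/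
def ResiduallyCharacters [IsLocalRing A] (R : G →* GL (Fin m) A) : Prop :=
  ∃ (k : Type) (_ : Field k) (_ : Algebra (ResidueField A) k) (χ : Fin m → (G →* kˣ)), ∀ g,
    (((R g : Matrix (Fin m) (Fin m) A).map (residue A)).map
      (algebraMap (ResidueField A) k)).charpoly = ∏ i, (X - C ((χ i g : kˣ) : k))

/-- `R` is continuous, unramified at all primes that do not lie above `p`, and residually a sum of
characters. -/
def Representation [IsLocalRing A] [TopologicalSpace A] (p : ℕ) (R : G →* GL (Fin m) A) : Prop :=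
  Continuous R ∧
  (∀ P : Ideal Z, P.IsMaximal → (p : Z) ∉ P → ∀ τ ∈ Inertia P, R τ = 1) ∧ ResiduallyCharacters R

/-- `e` is the `p`-adic cyclotomic character: if `g` raises the roots of unity of order `p ^ N` to
the power `a`, then `e g` is congruent to `a` modulo `p ^ N`. -/
def Cyclotomic [TopologicalSpace A] (p : ℕ) (e : G →* Aˣ) : Prop :=
  Continuous e ∧ ∀ (g : G) (N a : ℕ), (∀ ζ : AlgebraicClosure ℚ, ζ ^ p ^ N = 1 → g ζ = ζ ^ a) →
    ((e g : Aˣ) : A) - (a : A) ∈ Ideal.span {(p : A) ^ N}

variable (R : G →* GL (Fin m) A) (e : G →* Aˣ) {L : Type} [Field L] [Algebra A L]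

/-- The matrix of `g` over `L`. -/
noncomputable def mat (L : Type) [Field L] [Algebra A L] (g : G) : Matrix (Fin m) (Fin m) L :=
  (R g : Matrix (Fin m) (Fin m) A).map (algebraMap A L)

/-- `D` acts on `V/W` by the `a`-th power of `e` times finitely many operators. -/
def ActsBy (D : Set G) (W V : Submodule L (Fin m → L)) (a : ℤ) : Prop :=
  ∃ S : Set (Matrix (Fin m) (Fin m) L), S.Finite ∧ ∀ g ∈ D, ∃ s ∈ S, ∀ v ∈ V,
    mat R L g *ᵥ v - (algebraMap A L (e g)) ^ a • (s *ᵥ v) ∈ W

/-- `W` is stable under `D`. -/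
def Stable (D : Set G) (W : Submodule L (Fin m → L)) : Prop :=
  ∀ g ∈ D, ∀ v ∈ W, mat R L g *ᵥ v ∈ W

/-- `W < V` are stable under `D`, which acts on `V/W` by the `a`-th power of `e` times finitely many
operators. -/
def Piece (D : Set G) (W V : Submodule L (Fin m → L)) (a : ℤ) : Prop :=
  W < V ∧ Stable R D W ∧ Stable R D V ∧ ActsBy R e D W V a

/-- `R` is pure of weight `w` at the prime `Q`: for some Frobenius element (`x` goes to a power
`x ^ q` modulo `Q`) the characteristic polynomial has coefficients in a field `E` with an embedding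
in `ℂ`, such that its roots in `ℂ` have absolute value `q ^ (-w/2)`. -/
def PureAt (L : Type) [Field L] [Algebra A L] (Q : Ideal Z) (w : ℤ) : Prop :=
  ∃ (φ : G) (q : ℕ), 1 < q ∧ (∀ x : Z, φ • x - x ^ q ∈ Q) ∧
    ∃ (E : Type) (_ : Field E) (i : E →+* L) (τ : E →+* ℂ) (f : Polynomial E),
      f.map i = (mat R L φ).charpoly ∧
      ∀ z : ℂ, (f.map τ).IsRoot z → ‖z‖ = (q : ℝ) ^ (-(w : ℝ) / 2)

omit [CommRing A] [Algebra A L] in
/-- The theorem. -/
theorem result :
    (∀ p : ℕ, p.Prime → NoUnramified p →
      ∀ (m : ℕ) (A : Type) [CommRing A] [IsLocalRing A] [TopologicalSpace A], Coefficients p A →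
      ∀ (R : G →* GL (Fin m) A) (e : G →* Aˣ), Representation p R → Cyclotomic p e →
      ∀ P : Ideal Z, P.IsMaximal → (p : Z) ∈ P →
      ∀ (L : Type) [Field L] [Algebra A L] (W V : Submodule L (Fin m → L)) (a : ℤ),
        Piece R e (Inertia P) W V a → Piece R e Set.univ W V a ∧
          ∀ Q : Ideal Z, Q.IsMaximal → (p : Z) ∉ Q → ∀ w : ℤ, PureAt R L Q w → w = -2 * a) ∧
    NoUnramified 2 ∧ NoUnramified 3 ∧ NoUnramified 5 ∧ NoUnramified 7 := by
  refine ⟨?_, Pool.Agent.X290.Reg.noUnr2, Pool.Agent.X290.Reg.noUnr3, Pool.Agent.X290.Reg.noUnr5,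
    Pool.Agent.X290.Reg.noUnr7⟩
  rintro p hp hNU m A _ _ _ ⟨_, hA, hpA⟩ R e ⟨hR, hur, hres⟩
      ⟨he, hcyc⟩ P hP hpP L _ _ W V a ⟨hlt, hstW, hstV, S, hS, hS2⟩
  have hpf : Fact p.Prime := ⟨hp⟩
  have h1 : ∀ g : G, ∃ h ∈ Inertia P, R h = R g ∧ e h = e g := fun g =>
    Pool.Agent.X290.Reg.joint_main2 hNU hA hpA R hR hur hres e he
    (fun Q hQ hpQ τ hτ => Pool.Agent.X290.Reg.cyc_inertia hp.ne_zero hpA hcyc Q hQ hpQ hτ) hP hpP g
  have hst' : ∀ X : Submodule L (Fin m → L), Stable R (Inertia P) X →
      ∀ g, ∀ v ∈ X, mat R L g *ᵥ v ∈ X := by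
    intro X hX g v hv
    obtain ⟨d, hd, e1, _⟩ := h1 g
    have h2 := hX d hd v hv
    unfold mat at h2 ⊢
    rwa [e1] at h2
  set RL : G →* Matrix (Fin m) (Fin m) L :=
    ((((algebraMap A L).mapMatrix (m := Fin m)).toMonoidHom).comp
        ((Units.coeHom (Matrix (Fin m) (Fin m) A)).comp R)) with hRL
  set c : G →* L := ((algebraMap A L : A →* L).comp ((Units.coeHom A).comp e)) with hc
  have hU : ∀ g, ∃ s ∈ S, ∀ v ∈ V, RL g *ᵥ v - (c g) ^ a • (s *ᵥ v) ∈ W := by
    intro u
    obtain ⟨h, hh, e1, e2⟩ := h1 u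
    obtain ⟨s, hs, h3⟩ := hS2 h hh
    refine ⟨s, hs, fun v hv => ?_⟩
    have h4 := h3 v hv
    unfold mat at h4
    rw [e1, e2] at h4
    exact h4
  refine ⟨⟨hlt, fun g _ => hst' W hstW g, fun g _ => hst' V hstV g, S, hS,
    fun g _ => hU g⟩, ?_⟩
  rintro Q hQ hpQ w ⟨φ, q, hq, hφ, E, _, i, τ, f, hf, hpure⟩
  have hcφ : c φ = q := by
    have h2 : ((e φ : Aˣ) : A) = q :=
      Pool.Agent.X290.Reg.cyc_frob hp.ne_zero hpA hcyc Q hQ hpQ hφ
    show algebraMap A L ((e φ : Aˣ) : A) = q
    rw [h2, map_natCast]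
  have hfin : Finite (G ⧸ (⊤ : Subgroup G)) := inferInstance
  have h3 := Pool.Agent.X290.Reg.slope RL c (⊤ : Subgroup G) W V hlt a
    (fun u _ v hv => hst' V hstV u v hv) S hS (fun u _ => hU u) φ q hq hcφ i τ f hf w hpure
  omega

end Pool.Agent.Results.MP_07b2d0_nt.NoOrdinaryPart
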