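import Pool.Agent.X61.RI.Twist

/-!
# One-parameter families of elliptic curves and infinite random sets of bad primes

Let `K` be a number field and `P / Q` a rational function over `K` in lowest terms with `q ≥ 3`
different poles in `K ∪ {∞}`. We consider the elliptic curves over `K` whose `j`-invariant is a
value of `P / Q` at a point of `K`. For the `j`-invariant as a function of a parameter of a modular
curve of genus `0` with `q` cusps, all defined over `K`, these are the curves with a certain level
structure, e.g. `q = 6` for the cyclic isogenies of degree `12` (`K = ℚ`) and `q = 12` for the full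
level structure of level `5` (`K` containing the fifth roots of unity).

Let `S₀` be a finite set of primes of `K` and `T` a random set of primes: the events `v ∈ T` are
independent and of probability at most `N(v) ^ (-τ)`, where `τ > 2/q`. (For probabilities
`N(v) ^ (-τ)` with `τ ≤ 1` such a set `T` is infinite; it can contain about `X ^ (1 - τ)` primes of
norm at most `X`.)

1. With probability one there are, up to isomorphism over `K`, only finitely many of these curves
   (with `j ≠ 0, 1728`) which have good reduction outside `S₀ ∪ T` and semistable reduction at the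
   primes of `T` outside `S₀`.
2. Let all poles of `P / Q` be in `K ∪ {∞}`. With probability at least `1 - C R ^ (-δ)`,
   `0 < δ < τ - 2/q`, the following holds for all finite sets `S` of primes of `T` of norm at least
   `R` at the same time: the curves of the family with semistable reduction outside `S₀` and good
   reduction outside `S₀ ∪ S` have good reduction outside `S₀`.
-/

set_option autoImplicit false

namespace Pool.Agent.Results.MP_07b2d0_nt.RandomBadPrimesInFamilies

open NumberField IsDedekindDomain MeasureTheory ProbabilityTheory Polynomial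
open Pool.Agent.X61.RI (IsPole GoodAt SemistableAt)

section Defs

variable {K : Type} [Field K] [NumberField K]

/-- the absolute norm of a prime -/
noncomputable def norm (v : HeightOneSpectrum (𝓞 K)) : ℝ := (Ideal.absNorm v.asIdeal : ℝ)

/-- the `j`-invariant of the curve is a value of `P / Q` -/
def InFamily (P Q : K[X]) (W : WeierstrassCurve K) [W.IsElliptic] : Prop :=
  ∃ t : K, Q.eval t ≠ 0 ∧ W.j = P.eval t / Q.eval t

end Defs

/-- **Families of elliptic curves and infinite random sets of bad primes.** Let `K` be a number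
field, `P / Q` a rational function over `K` in lowest terms, `c_1, …, c_q` different poles of it in
`K ∪ {∞}`, `q ≥ 3`, `S₀` a finite set of primes of `K` and `τ > 2/q`. Let `T = {v | ω ∈ E v}` be a
random set of primes, where the events `E v` are independent, of probability at most
`N(v) ^ (-τ)`.

(1) With probability one there is a finite set of Weierstrass equations over `K` such that every
elliptic curve over `K` whose `j`-invariant is a value of `P / Q` different from `0` and `1728`,
with good reduction at all primes outside `S₀ ∪ T` and semistable reduction at the primes of `T`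
outside `S₀`, is isomorphic over `K` to one of them.

(2) Assume that `P / Q` has no other poles over an algebraic closure. For `0 < δ < τ - 2/q` there is a
constant `C`, depending on `K`, `P`, `Q`, `S₀`, `τ` and `δ` only, such that for every `R > 0` with
probability at least `1 - C R ^ (-δ)` for all finite sets `S` of primes of `T` of norm at least `R`
all elliptic curves over `K` whose `j`-invariant is a value of `P / Q`, with semistable reduction
outside `S₀` and good reduction outside `S₀ ∪ S`, have good reduction outside `S₀`. -/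
theorem result (K : Type) [Field K] [NumberField K] (P Q : K[X]) (hQ : Q ≠ 0)
    (hPQ : IsCoprime P Q) (q : ℕ) (hq : 3 ≤ q) (c : Fin q → Option K)
    (hinj : Function.Injective c) (hc : ∀ l, IsPole P Q (c l))
    (S₀ : Set (HeightOneSpectrum (𝓞 K))) (hS₀ : S₀.Finite) (τ : ℝ) (hτ : 2 / (q : ℝ) < τ) :
    (∀ (Ω : Type) [MeasurableSpace Ω] (μ : Measure Ω) (E : HeightOneSpectrum (𝓞 K) → Set Ω),
      iIndepSet E μ → (∀ v, μ (E v) ≤ ENNReal.ofReal (norm v ^ (-τ))) →
      ∀ᵐ ω ∂μ, ∃ F : Set (WeierstrassCurve K), F.Finite ∧
        ∀ (W : WeierstrassCurve K) [W.IsElliptic], InFamily P Q W → W.j ≠ 0 → W.j ≠ 1728 →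
        (∀ v, v ∉ S₀ → ω ∉ E v → GoodAt v W) → (∀ v, v ∉ S₀ → ω ∈ E v → SemistableAt v W) →
        ∃ W' ∈ F, ∃ C : WeierstrassCurve.VariableChange K, C • W = W') ∧
    (Q.Splits → (∀ o, IsPole P Q o → ∃ l, c l = o) →
      ∀ δ : ℝ, 0 < δ → δ < τ - 2 / (q : ℝ) → ∃ C : ℝ, 0 < C ∧
      ∀ (Ω : Type) [MeasurableSpace Ω] (μ : Measure Ω) (E : HeightOneSpectrum (𝓞 K) → Set Ω),
      iIndepSet E μ → (∀ v, μ (E v) ≤ ENNReal.ofReal (norm v ^ (-τ))) → ∀ R : ℝ, 0 < R →
      μ {ω | ¬ ∀ S : Finset (HeightOneSpectrum (𝓞 K)), (∀ v ∈ S, R ≤ norm v ∧ ω ∈ E v) →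
        ∀ (W : WeierstrassCurve K) [W.IsElliptic], InFamily P Q W →
        (∀ v, v ∉ S₀ → SemistableAt v W) → (∀ v, v ∉ S₀ → v ∉ S → GoodAt v W) →
        ∀ v, v ∉ S₀ → GoodAt v W} ≤ ENNReal.ofReal (C * R ^ (-δ))) := by
  have hP : P ≠ 0 := by
    rintro rfl
    have h0 := hc ⟨0, by omega⟩
    have hu : IsUnit Q := isCoprime_zero_left.1 hPQ
    rcases hco : c ⟨0, by omega⟩ with _ | a
    · rw [hco] at h0
      have h1 : Q.natDegree < (0 : K[X]).natDegree := h0
      rw [natDegree_zero] at h1
      omega
    · rw [hco] at h0
      have h1 : Q.eval a = 0 := h0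
      obtain ⟨b, hb, hbQ⟩ := Polynomial.isUnit_iff.1 hu
      rw [← hbQ, eval_C] at h1
      exact hb.ne_zero h1
  refine ⟨fun Ω _ μ E hi hE => ?_, fun hs hall δ hδ hδτ => ?_⟩
  · filter_upwards [Pool.Agent.X61.RI.fam_finite hP hQ hPQ hq hinj hc S₀ hS₀ hτ hi hE] with ω hω
    obtain ⟨F, hF, h⟩ := Pool.Agent.X61.RI.twists_finite
      (hω.image fun t => P.eval t / Q.eval t) hS₀
    refine ⟨F, hF, fun W _ hW h0 h1 hg hss => h W ?_ h0 h1 fun v hv => ?_⟩
    · obtain ⟨t, ht, hj⟩ := hW
      refine ⟨t, ⟨ht, fun v hv hv' => ?_⟩, hj.symm⟩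
      have h2 := Pool.Agent.X61.RI.good_j (hg v hv hv')
      rwa [hj] at h2
    · by_cases hv' : ω ∈ E v
      · exact hss v hv hv'
      · exact (hg v hv hv').semistable
  · obtain ⟨C, hC, h⟩ := Pool.Agent.X61.RI.fam_small hP hQ hPQ hq hinj hc hs hall S₀ hS₀ hδ hδτ
    refine ⟨C, hC, fun Ω _ μ E hi hE R hR => (measure_mono ?_).trans (h μ E hi hE R hR)⟩
    intro ω hω
    by_contra hcon
    apply hω
    intro S hS W _ hW hss hg v hv
    obtain ⟨t, ht, hj⟩ := hW
    refine Pool.Agent.X61.RI.good_of_j (hss v hv) ?_
    by_contra hv'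
    refine hcon ⟨t, ht, fun w hw hw' => ?_, v, hv, by rw [← hj]; exact not_le.1 hv'⟩
    rw [← hj]
    exact Pool.Agent.X61.RI.good_j (hg w hw fun hwS => hw' (hS w hwS))

end Pool.Agent.Results.MP_07b2d0_nt.RandomBadPrimesInFamilies
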